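import Pool.Agent.H16.WK3

set_option autoImplicit false
open Set Filter Topology
open scoped ENNReal ContDiff

namespace Pool.Agent.Results.MP_e5a79a_an.Disproof

open Pool.Agent.H16.WK

/-- There is a Tonelli Hamiltonian `H` on `𝕋¹ × ℝ` with `π(𝒜₀) = 𝕋¹`, such that `H(x, Du) = α(0)` has
a viscosity solution `u`, unique up to constants, and there are `ε > 0` and `c_k → 0` such that
`‖D v - D u‖_{Lip(π(𝒜_{c_k}))} ≥ ε` for every `k` and every viscosity solution `v` of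
`H_{c_k}(x, Dv) = α(c_k)`. -/
theorem result : ∃ H : ℝ → ℝ → ℝ, Tonelli H ∧
    ∃ α₀ : ℝ, IsCriticalValue (shift H 0) α₀ ∧ aubry (shift H 0) α₀ = univ ∧
    ∃ u : ℝ → ℝ, IsViscositySolution (shift H 0) α₀ u ∧
      (∀ u', IsViscositySolution (shift H 0) α₀ u' → ∃ C : ℝ, ∀ x, u' x = u x + C) ∧
    ∃ ε : ℝ, 0 < ε ∧ ∃ c : ℕ → ℝ, Tendsto c atTop (𝓝 0) ∧
      ∀ k, ∃ α : ℝ, IsCriticalValue (shift H (c k)) α ∧
        ∀ v, IsViscositySolution (shift H (c k)) α v →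
          ENNReal.ofReal ε ≤ lipNorm (aubry (shift H (c k)) α) (fun x => deriv v x - deriv u x) :=
  main

end Pool.Agent.Results.MP_e5a79a_an.Disproof
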